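import Pool.Agent.H504Z.CT.Graph

set_option autoImplicit false

namespace Pool.Agent.Results.MP_8f2dc9_al.ALocFiniteExample

open Pool.Agent.H504Z.CT

universe u

/-- There is a connected, locally finite, coarsely transitive graph that is quasi-isometric to no
connected vertex-transitive graph, locally finite or not. -/
theorem result : ∃ (A : Type) (X : SimpleGraph A), X.Connected ∧ (∀ v, (X.neighborSet v).Finite) ∧
    CoarselyTransitive X ∧
    ∀ (B : Type u) (Y : SimpleGraph B), Y.Connected → VertexTransitive Y → ¬ QuasiIsometric X Y :=
  ⟨W, X, X_conn, X_locFin, X_ct, fun _ Y hY hT => X_not_qi Y hY hT⟩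

end Pool.Agent.Results.MP_8f2dc9_al.ALocFiniteExample
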